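import Pool.Agent.Helper79.GL4.GoalsR

set_option linter.unusedVariables false

/-!
# Packet CH of MP_27a5f8_al: the irreducible characters of a finite group
-/

namespace GL4.PkCH

open Module Submodule Representation
open scoped ComplexOrder Matrix

theorem conj_char {G : Type} [Group G] [Finite G] {V : Type} [AddCommGroup V] [Module ℂ V]
    [FiniteDimensional ℂ V] (ρ : Representation ℂ G V) (g : G) :
    (starRingEnd ℂ) (ρ.character g) = ρ.character g⁻¹ := by
  classical
  have := Fintype.ofFinite G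
  let b := Module.finBasis ℂ V
  let M : G → Matrix (Fin (finrank ℂ V)) (Fin (finrank ℂ V)) ℂ :=
    fun g => LinearMap.toMatrix b b (ρ g)
  have hmul : ∀ g h, M (g * h) = M g * M h := by
    intro g h
    show LinearMap.toMatrix b b (ρ (g * h)) = _
    rw [map_mul, LinearMap.toMatrix_mul]
  have hone : M 1 = 1 := by
    show LinearMap.toMatrix b b (ρ 1) = _
    rw [map_one, LinearMap.toMatrix_one]
  have htr : ∀ g, ρ.character g = (M g).trace := by
    intro g
    show LinearMap.trace ℂ V (ρ g) = _
    rw [LinearMap.trace_eq_matrix_trace ℂ b]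
  let H : Matrix (Fin (finrank ℂ V)) (Fin (finrank ℂ V)) ℂ := ∑ g, (M g)ᴴ * M g
  have hH : H.PosDef := by
    have h1 : H = (M 1)ᴴ * M 1 + ∑ g ∈ Finset.univ.erase 1, (M g)ᴴ * M g :=
      (Finset.add_sum_erase Finset.univ (fun g => (M g)ᴴ * M g) (Finset.mem_univ 1)).symm
    rw [h1, hone]
    have h2 : ((1 : Matrix (Fin (finrank ℂ V)) (Fin (finrank ℂ V)) ℂ)ᴴ * 1) = 1 := by simp
    rw [h2]
    refine Matrix.PosDef.add_posSemidef Matrix.PosDef.one ?_
    exact Matrix.posSemidef_sum _ (fun g _ => Matrix.posSemidef_conjTranspose_mul_self _)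
  have hinv : (M g)ᴴ * H * M g = H := by
    have h1 : (M g)ᴴ * H * M g = ∑ h, (M (h * g))ᴴ * M (h * g) := by
      show (M g)ᴴ * (∑ g, (M g)ᴴ * M g) * M g = _
      rw [Finset.mul_sum, Finset.sum_mul]
      refine Finset.sum_congr rfl (fun h _ => ?_)
      rw [hmul, Matrix.conjTranspose_mul]
      simp only [Matrix.mul_assoc]
    rw [h1]
    exact Fintype.sum_equiv (Equiv.mulRight g) _ _ (fun h => rfl)
  have h2 : (M g)ᴴ * H = H * M g⁻¹ := by
    have h3 : M g * M g⁻¹ = 1 := by rw [← hmul, mul_inv_cancel, hone]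
    calc (M g)ᴴ * H = (M g)ᴴ * H * (M g * M g⁻¹) := by rw [h3, Matrix.mul_one]
      _ = ((M g)ᴴ * H * M g) * M g⁻¹ := by simp only [Matrix.mul_assoc]
      _ = H * M g⁻¹ := by rw [hinv]
  have hu : IsUnit H := hH.isUnit
  have hu2 : H⁻¹ * H = 1 := Matrix.nonsing_inv_mul _ ((Matrix.isUnit_iff_isUnit_det _).mp hu)
  have hu3 : H * H⁻¹ = 1 := Matrix.mul_nonsing_inv _ ((Matrix.isUnit_iff_isUnit_det _).mp hu)
  have h4 : M g⁻¹ = H⁻¹ * (M g)ᴴ * H := by
    rw [Matrix.mul_assoc, h2, ← Matrix.mul_assoc, hu2, Matrix.one_mul]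
  rw [htr, htr, h4, Matrix.trace_mul_comm, ← Matrix.mul_assoc, hu3, Matrix.one_mul,
    Matrix.trace_conjTranspose]
  rfl

theorem ip_top {G : Type} [Group G] [Fintype G] (f₁ f₂ : G → ℂ) :
    ip ⊤ f₁ f₂ = (Nat.card G : ℂ)⁻¹ * ∑ g : G, f₁ g * (starRingEnd ℂ) (f₂ g) := by
  unfold ip
  rw [Subgroup.card_top]
  congr 1
  rw [← finsum_eq_sum_of_fintype]
  exact finsum_comp_equiv (Subgroup.topEquiv (G := G)).toEquiv
    (f := fun g => f₁ g * (starRingEnd ℂ) (f₂ g))

theorem ip_one {G : Type} [Group G] [Finite G] {χ : G → ℂ} (h : IsIrr χ) (K : Subgroup G) :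
    ∃ m : ℕ, ip K χ 1 = m := by
  classical
  obtain ⟨V, _, _, _, ρ, hρ, rfl⟩ := h
  have := Fintype.ofFinite K
  have hne : (Nat.card K : ℂ) ≠ 0 := by
    rw [Nat.cast_ne_zero]; exact Nat.card_pos.ne'
  have : Invertible (Nat.card K : ℂ) := invertibleOfNonzero hne
  refine ⟨finrank ℂ (invariants (ρ.comp K.subtype)), ?_⟩
  rw [← card_inv_mul_sum_char_eq_finrank (ρ := (ρ.comp K.subtype))]
  unfold ip
  rw [finsum_eq_sum_of_fintype]
  congr 1
  refine Finset.sum_congr rfl (fun g _ => ?_)
  simp only [Pi.one_apply, map_one, mul_one]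
  rfl

theorem ortho {G : Type} [Group G] [Finite G] {χ χ' : G → ℂ} (h : IsIrr χ) (h' : IsIrr χ') :
    (χ = χ' → ip ⊤ χ χ' = 1) ∧ (χ ≠ χ' → ip ⊤ χ χ' = 0) := by
  classical
  have := Fintype.ofFinite G
  have hne : (Nat.card G : ℂ) ≠ 0 := by
    rw [Nat.cast_ne_zero]; exact Nat.card_pos.ne'
  have : Invertible (Nat.card G : ℂ) := invertibleOfNonzero hne
  constructor
  · rintro rfl
    obtain ⟨V, _, _, _, ρ, hρ, rfl⟩ := h
    rw [ip_top]
    simp only [conj_char]
    rw [char_orthonormal (ρ := ρ) (σ := ρ)]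
    rw [if_pos ⟨Representation.Equiv.refl ρ⟩]
  · intro hn
    obtain ⟨V, _, _, _, ρ, hρ, rfl⟩ := h
    obtain ⟨W, _, _, _, σ, hσ, rfl⟩ := h'
    rw [ip_top]
    simp only [conj_char]
    rw [char_orthonormal (ρ := ρ) (σ := σ)]
    rw [if_neg]
    rintro ⟨φ⟩
    exact hn (char_iso φ).symm

theorem fin_irr (G : Type) [Group G] [Finite G] : {χ : G → ℂ | IsIrr χ}.Finite := by
  classical
  have := Fintype.ofFinite G
  have hli : LinearIndependent ℂ (fun χ : {χ : G → ℂ | IsIrr χ} => (χ : G → ℂ)) := by
    rw [linearIndependent_iff']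
    intro s c hc i hi
    have h1 : ip ⊤ (∑ j ∈ s, c j • (j : G → ℂ)) (i : G → ℂ) = ∑ j ∈ s, c j * ip ⊤ (j : G → ℂ) i := by
      simp only [ip_top]
      simp only [Finset.sum_apply, Pi.smul_apply, smul_eq_mul, Finset.sum_mul]
      rw [Finset.sum_comm, Finset.mul_sum]
      refine Finset.sum_congr rfl (fun j _ => ?_)
      rw [← mul_assoc, mul_comm (c j), mul_assoc, Finset.mul_sum (s := Finset.univ) (a := c j)]
      congr 1
      refine Finset.sum_congr rfl (fun g _ => ?_)
      ring
    rw [hc] at h1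
    have h2 : ip ⊤ (0 : G → ℂ) (i : G → ℂ) = 0 := by
      rw [ip_top]; simp
    rw [h2, Finset.sum_eq_single i] at h1
    · rw [(ortho i.2 i.2).1 rfl, mul_one] at h1
      exact h1.symm
    · intro j _ hj
      rw [(ortho j.2 i.2).2 (fun h => hj (Subtype.ext h)), mul_zero]
    · intro h; exact absurd hi h
  exact hli.setFinite

theorem char_add {G : Type} [Group G] {V : Type} [AddCommGroup V] [Module ℂ V]
    [FiniteDimensional ℂ V] (ρ : Representation ℂ G V) (U W : Subrepresentation ρ)
    (h : IsCompl U.toSubmodule W.toSubmodule) :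
    ρ.character = U.toRepresentation.character + W.toRepresentation.character := by
  funext g
  show LinearMap.trace ℂ V (ρ g) = LinearMap.trace ℂ U.toSubmodule (U.toRepresentation g) +
    LinearMap.trace ℂ W.toSubmodule (W.toRepresentation g)
  rw [← LinearMap.trace_prodMap', ← LinearMap.trace_conj' _ (Submodule.prodEquivOfIsCompl _ _ h)]
  congr 1
  ext v
  obtain ⟨⟨u, w⟩, rfl⟩ := (Submodule.prodEquivOfIsCompl _ _ h).surjective v
  rw [LinearEquiv.conj_apply_apply, LinearEquiv.symm_apply_apply]
  simp only [LinearMap.prodMap_apply, Submodule.coe_prodEquivOfIsCompl', map_add]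
  rfl

theorem decomp {G : Type} [Group G] [Finite G] (I : Finset (G → ℂ)) (hI : ∀ χ, χ ∈ I ↔ IsIrr χ) :
    ∀ n : ℕ, ∀ (V : Type) [AddCommGroup V] [Module ℂ V] [FiniteDimensional ℂ V]
      (ρ : Representation ℂ G V), finrank ℂ V = n →
      ∃ m : (G → ℂ) → ℕ, ρ.character = ∑ χ ∈ I, (m χ : ℂ) • χ := by
  classical
  intro n
  induction n using Nat.strong_induction_on with
  | _ n ih =>
    intro V _ _ _ ρ hn
    by_cases h0 : n = 0
    · subst h0
      refine ⟨fun _ => 0, ?_⟩
      have : Subsingleton V := finrank_zero_iff.mp hn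
      funext g
      show LinearMap.trace ℂ V (ρ g) = _
      rw [Subsingleton.elim (ρ g) 0, map_zero]
      simp
    · by_cases hirr : ρ.IsIrreducible
      · refine ⟨fun χ => if χ = ρ.character then 1 else 0, ?_⟩
        have hmem : ρ.character ∈ I := (hI _).mpr ⟨V, _, _, ‹_›, ρ, hirr, rfl⟩
        rw [Finset.sum_eq_single ρ.character]
        · simp
        · intro χ _ hχ
          simp [hχ]
        · intro h; exact absurd hmem h
      · have hnt : Nontrivial V := by
          rw [← finrank_pos_iff (R := ℂ)]; omega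
        have hbt : (⊥ : Subrepresentation ρ) ≠ ⊤ := by
          intro h
          have h2 : (⊥ : Submodule ℂ V) = ⊤ := congrArg Subrepresentation.toSubmodule h
          exact bot_ne_top h2
        have hex : ∃ U : Subrepresentation ρ, U ≠ ⊥ ∧ U ≠ ⊤ := by
          by_contra hcon
          push Not at hcon
          apply hirr
          exact { exists_pair_ne := ⟨⊥, ⊤, hbt⟩
                  eq_bot_or_eq_top := fun a => by
                    by_cases ha : a = ⊥
                    · exact Or.inl ha
                    · exact Or.inr (hcon a ha) }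
        obtain ⟨U, hU1, hU2⟩ := hex
        have hne : (Nat.card G : ℂ) ≠ 0 := by
          rw [Nat.cast_ne_zero]; exact Nat.card_pos.ne'
        have : NeZero (Nat.card G : ℂ) := ⟨hne⟩
        obtain ⟨W, hW⟩ := exists_isCompl U
        have hc : IsCompl U.toSubmodule W.toSubmodule := by
          constructor
          · rw [disjoint_iff]
            have := hW.disjoint.eq_bot
            exact congrArg Subrepresentation.toSubmodule this
          · rw [codisjoint_iff]
            have := hW.codisjoint.eq_top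
            exact congrArg Subrepresentation.toSubmodule this
        have hsum := Submodule.finrank_add_eq_of_isCompl hc
        have hUpos : finrank ℂ U.toSubmodule ≠ 0 := by
          intro h
          apply hU1
          apply Subrepresentation.toSubmodule_injective
          exact Submodule.finrank_eq_zero.mp h
        have hWpos : finrank ℂ W.toSubmodule ≠ 0 := by
          intro h
          apply hU2
          apply Subrepresentation.toSubmodule_injective
          apply Submodule.eq_top_of_finrank_eq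
          omega
        obtain ⟨m₁, h₁⟩ := ih _ (by omega) U.toSubmodule U.toRepresentation rfl
        obtain ⟨m₂, h₂⟩ := ih _ (by omega) W.toSubmodule W.toRepresentation rfl
        refine ⟨fun χ => m₁ χ + m₂ χ, ?_⟩
        rw [char_add ρ U W hc, h₁, h₂, ← Finset.sum_add_distrib]
        refine Finset.sum_congr rfl (fun χ _ => ?_)
        push_cast
        rw [add_smul]

open Classical in
theorem ch : GL4.CH := by
  intro G _ _
  have hf := fin_irr G
  refine ⟨hf.toFinset, fun χ => by simp, ?_, ?_, ?_⟩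
  · intro χ hχ K
    exact ip_one (by simpa using hχ) K
  · intro χ hχ χ' hχ'
    have h := ortho (χ := χ) (χ' := χ') (by simpa using hχ) (by simpa using hχ')
    split_ifs with he
    · exact h.1 he
    · exact h.2 he
  · intro V _ _ _ ρ
    exact decomp hf.toFinset (fun χ => by simp) _ V ρ rfl

end GL4.PkCH
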